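import Mathlib

/-!
# Sequences of properties whose patterns have the law of independent events with different
probabilities
-/

set_option autoImplicit false

open scoped Classical

namespace Pool.Agent.U695.JT

open Finset Filter Topology

/-- the weight of a pattern -/
noncomputable def wt {n : ℕ} (p : Fin n → ℝ) (A : Finset (Fin n)) : ℝ :=
  ∏ k : Fin n, if k ∈ A then p k else 1 - p k

theorem wt_nonneg {n : ℕ} {p : Fin n → ℝ} (hp : ∀ k, 0 ≤ p k ∧ p k ≤ 1) (A : Finset (Fin n)) :
    0 ≤ wt p A := by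
  refine prod_nonneg fun k _ => ?_
  split_ifs
  · exact (hp k).1
  · linarith [(hp k).2]

theorem sum_gen {n : ℕ} (a b : Fin n → ℝ) :
    ∑ A : Finset (Fin n), ∏ k : Fin n, (if k ∈ A then a k else b k) = ∏ k, (a k + b k) := by
  rw [Finset.prod_add]
  rw [Finset.powerset_univ]
  refine Finset.sum_congr rfl fun A _ => ?_
  rw [Finset.prod_ite]
  congr 1
  · refine Finset.prod_congr ?_ fun _ _ => rfl
    ext k; simp
  · refine Finset.prod_congr ?_ fun _ _ => rfl
    ext k; simp

theorem wt_exp {n : ℕ} (p : Fin n → ℝ) (A : Finset (Fin n)) (t : ℝ) :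
    wt p A * Real.exp (t * A.card) =
      ∏ k : Fin n, if k ∈ A then p k * Real.exp t else 1 - p k := by
  have h1 : Real.exp (t * A.card) = ∏ k : Fin n, if k ∈ A then Real.exp t else 1 := by
    rw [Finset.prod_ite]
    rw [Finset.prod_const_one, mul_one, Finset.prod_const]
    have e : (univ.filter fun k : Fin n => k ∈ A) = A := by ext k; simp
    rw [e, ← Real.exp_nat_mul, mul_comm]
  rw [h1, wt, ← Finset.prod_mul_distrib]
  refine Finset.prod_congr rfl fun k _ => ?_
  split_ifs <;> simp

theorem exp_le_quad {x : ℝ} (h : |x| ≤ 1) : Real.exp x ≤ 1 + x + x ^ 2 := by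
  have h1 := Real.abs_exp_sub_one_sub_id_le h
  have h2 := (abs_le.1 h1).2
  linarith

theorem tail {n : ℕ} {p : Fin n → ℝ} (hp : ∀ k, 0 ≤ p k ∧ p k ≤ 1) {ε : ℝ} (hε : 0 < ε)
    (hε1 : ε ≤ 1) {s : ℝ} (hs : s = 1 ∨ s = -1) :
    ∑ A : Finset (Fin n), (if ε * n ≤ s * ((A.card : ℝ) - ∑ k, p k) then wt p A else 0) ≤
      Real.exp (-(ε ^ 2 * n / 4)) := by
  set μ := ∑ k, p k with hμ
  set t := ε / 2 with ht
  have ht0 : 0 < t := by positivity
  have hsq : s ^ 2 = 1 := by rcases hs with rfl | rfl <;> norm_num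
  have habs : |t * s| ≤ 1 := by
    rw [abs_mul]
    have : |s| = 1 := by rcases hs with rfl | rfl <;> norm_num
    rw [this, mul_one, abs_of_pos ht0]
    linarith
  have h1 : ∀ A : Finset (Fin n),
      (if ε * n ≤ s * ((A.card : ℝ) - μ) then wt p A else 0) ≤
        Real.exp (-(t * (ε * n)) - t * s * μ) * (wt p A * Real.exp (t * s * A.card)) := by
    intro A
    have hw := wt_nonneg hp A
    have e1 : Real.exp (-(t * (ε * n)) - t * s * μ) * (wt p A * Real.exp (t * s * A.card)) =
        wt p A * Real.exp (t * (s * ((A.card : ℝ) - μ) - ε * n)) := by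
      rw [mul_left_comm, ← Real.exp_add]
      congr 2
      ring
    rw [e1]
    split_ifs with h
    · refine le_mul_of_one_le_right hw (Real.one_le_exp ?_)
      exact mul_nonneg ht0.le (by linarith)
    · positivity
  refine (Finset.sum_le_sum fun A _ => h1 A).trans ?_
  rw [← Finset.mul_sum]
  have h2 : ∑ A : Finset (Fin n), wt p A * Real.exp (t * s * A.card) =
      ∏ k : Fin n, (p k * Real.exp (t * s) + (1 - p k)) := by
    rw [← sum_gen]
    exact Finset.sum_congr rfl fun A _ => wt_exp p A (t * s)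
  rw [h2]
  have h3 : ∏ k : Fin n, (p k * Real.exp (t * s) + (1 - p k)) ≤
      ∏ k : Fin n, Real.exp (p k * (t * s) + t ^ 2) := by
    refine Finset.prod_le_prod (fun k _ => ?_) fun k _ => ?_
    · have := (hp k).1
      have := (hp k).2
      have := Real.exp_pos (t * s)
      have h4 : 0 ≤ p k * Real.exp (t * s) := by positivity
      linarith
    · have h4 := exp_le_quad habs
      have h5 := (hp k).1
      have h6 := (hp k).2
      have h7 : (t * s) ^ 2 = t ^ 2 := by rw [mul_pow, hsq, mul_one]
      have h8 : p k * Real.exp (t * s) ≤ p k * (1 + t * s + t ^ 2) := by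
        rw [← h7]
        exact mul_le_mul_of_nonneg_left h4 h5
      have h9 : p k * t ^ 2 ≤ t ^ 2 := by nlinarith [sq_nonneg t]
      have h10 := Real.add_one_le_exp (p k * (t * s) + t ^ 2)
      nlinarith
  have h4 : ∏ k : Fin n, Real.exp (p k * (t * s) + t ^ 2) = Real.exp (μ * (t * s) + n * t ^ 2) := by
    rw [← Real.exp_sum, Finset.sum_add_distrib, ← Finset.sum_mul, ← hμ, Finset.sum_const,
      Finset.card_univ, Fintype.card_fin, nsmul_eq_mul]
  rw [h4] at h3
  refine (mul_le_mul_of_nonneg_left h3 (Real.exp_pos _).le).trans (le_of_eq ?_)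
  rw [← Real.exp_add]
  congr 1
  rw [ht]
  ring

variable {α : Type}

/-- the proportions of the patterns tend to the product law -/
def Pat (S : ℕ → Finset α) (P : ℕ → α → Prop) (p : ℕ → ℝ) : Prop :=
  ∀ (n : ℕ) (A : Finset (Fin n)), Tendsto (fun X : ℕ =>
    (((S X).filter fun a => ∀ k : Fin n, (k ∈ A ↔ P k a)).card : ℝ) / ((S X).card : ℝ)) atTop
      (𝓝 (wt (fun k : Fin n => p k) A))

variable {S : ℕ → Finset α} {P : ℕ → α → Prop} {p : ℕ → ℝ}

theorem cnt (h : Pat S P p) (n : ℕ) (Q : Finset (Fin n) → Prop) :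
    Tendsto (fun X : ℕ =>
      (((S X).filter fun a => Q (univ.filter fun k : Fin n => P k a)).card : ℝ) /
        ((S X).card : ℝ)) atTop
      (𝓝 (∑ A : Finset (Fin n), if Q A then wt (fun k : Fin n => p k) A else 0)) := by
  have h1 : ∀ X, (((S X).filter fun a => Q (univ.filter fun k : Fin n => P k a)).card : ℝ) /
      ((S X).card : ℝ) = ∑ A : Finset (Fin n), if Q A then
        (((S X).filter fun a => ∀ k : Fin n, (k ∈ A ↔ P k a)).card : ℝ) / ((S X).card : ℝ)
          else 0 := by
    intro X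
    have h2 : ((S X).filter fun a => Q (univ.filter fun k : Fin n => P k a)).card =
        ∑ A : Finset (Fin n), if Q A then
          ((S X).filter fun a => ∀ k : Fin n, (k ∈ A ↔ P k a)).card else 0 := by
      rw [Finset.card_eq_sum_card_fiberwise (f := fun a => univ.filter fun k : Fin n => P k a)
        (t := univ) (fun _ _ => Finset.mem_coe.2 (mem_univ _))]
      refine Finset.sum_congr rfl fun A _ => ?_
      rw [Finset.filter_filter]
      split_ifs with hQ
      · congr 1
        refine Finset.filter_congr fun a _ => ?_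
        constructor
        · rintro ⟨-, h3⟩ k
          rw [← h3]
          simp
        · intro h3
          have h4 : (univ.filter fun k : Fin n => P k a) = A := by
            ext k
            rw [mem_filter]
            simp only [mem_univ, true_and]
            exact (h3 k).symm
          exact ⟨by rw [h4]; exact hQ, h4⟩
      · rw [Finset.card_eq_zero, Finset.filter_eq_empty_iff]
        rintro a - ⟨h3, h4⟩
        rw [h4] at h3
        exact hQ h3
    rw [h2]
    push_cast
    rw [Finset.sum_div]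
    refine Finset.sum_congr rfl fun A _ => ?_
    split_ifs
    · rfl
    · rw [zero_div]
  refine Tendsto.congr (fun X => (h1 X).symm) ?_
  refine tendsto_finset_sum _ fun A _ => ?_
  split_ifs
  · exact h n A
  · exact tendsto_const_nhds

theorem card_range (n : ℕ) (a : α) :
    ((range n).filter fun k => P k a).card = (univ.filter fun k : Fin n => P k a).card := by
  symm
  refine Finset.card_bij (fun k _ => (k : ℕ)) ?_ ?_ ?_
  · intro k hk
    rw [mem_filter] at hk ⊢
    exact ⟨mem_range.2 k.2, hk.2⟩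
  · intro a _ b _ h
    exact Fin.ext h
  · intro b hb
    rw [mem_filter, mem_range] at hb
    exact ⟨⟨b, hb.1⟩, by simp [hb.2], rfl⟩

/-- **The law of large numbers with exponential rate.** -/
theorem lln (hp : ∀ k, 0 ≤ p k ∧ p k ≤ 1) (h : Pat S P p) (n : ℕ) (hn : 0 < n) (ε : ℝ)
    (hε : 0 < ε) :
    ∃ l : ℝ, l ≤ 2 * Real.exp (-(ε ^ 2 * n / 4)) ∧ Tendsto (fun X : ℕ =>
      (((S X).filter fun a =>
        ε ≤ |(((range n).filter fun k => P k a).card : ℝ) / n -
          (∑ k ∈ range n, p k) / n|).card : ℝ) /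
        ((S X).card : ℝ)) atTop (𝓝 l) := by
  have hn' : (0 : ℝ) < n := by exact_mod_cast hn
  have hμ : ∑ k ∈ range n, p k = ∑ k : Fin n, p k := (Fin.sum_univ_eq_sum_range p n).symm
  have hT := cnt h n fun A => ε ≤ |(A.card : ℝ) / n - (∑ k : Fin n, p k) / n|
  refine ⟨_, ?_, hT.congr fun X => ?_⟩
  swap
  · simp only [card_range, hμ]
  have hpf : ∀ k : Fin n, 0 ≤ p k ∧ p k ≤ 1 := fun k => hp k
  have hw := fun A => wt_nonneg hpf A
  set μ := ∑ k : Fin n, p k with hμd
  have hμ0 : 0 ≤ μ := Finset.sum_nonneg fun k _ => (hp k).1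
  have hμn : μ ≤ n := by
    have : μ ≤ ∑ k : Fin n, (1 : ℝ) := Finset.sum_le_sum fun k _ => (hp k).2
    simpa using this
  by_cases hε1 : ε ≤ 1
  · have h1 := tail hpf hε hε1 (Or.inl rfl : (1 : ℝ) = 1 ∨ (1 : ℝ) = -1)
    have h2 := tail hpf hε hε1 (Or.inr rfl : (-1 : ℝ) = 1 ∨ (-1 : ℝ) = -1)
    refine le_trans ?_ (le_of_le_of_eq (add_le_add h1 h2) (two_mul _).symm)
    rw [← sum_add_distrib]
    refine sum_le_sum fun A _ => ?_
    have hA := hw A
    by_cases hJ : ε ≤ |(A.card : ℝ) / n - μ / n|
    · rw [if_pos hJ, ← sub_div, abs_div, abs_of_pos hn', le_div_iff₀ hn'] at *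
      rcases le_abs.1 hJ with h3 | h3
      · have h4 : ε * n ≤ 1 * (A.card - ∑ k : Fin n, p k) := by rw [one_mul]; exact h3
        rw [if_pos h4]
        split_ifs <;> linarith
      · have h4 : ε * n ≤ -1 * (A.card - ∑ k : Fin n, p k) := by linarith
        rw [if_pos h4]
        split_ifs <;> linarith
    · rw [if_neg hJ]
      split_ifs <;> linarith
  · have h3 : ∀ A : Finset (Fin n), ¬ ε ≤ |(A.card : ℝ) / n - μ / n| := by
      intro A hA
      have h4 : (A.card : ℝ) / n ≤ 1 := by
        rw [div_le_one hn']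
        have := card_le_univ A
        rw [Fintype.card_fin] at this
        exact_mod_cast this
      have h5 : 0 ≤ (A.card : ℝ) / n := by positivity
      have h6 : μ / n ≤ 1 := by rw [div_le_one hn']; exact hμn
      have h7 : 0 ≤ μ / n := by positivity
      have h8 : |(A.card : ℝ) / n - μ / n| ≤ 1 := abs_le.2 ⟨by linarith, by linarith⟩
      exact hε1 (hA.trans h8)
    rw [sum_eq_zero fun A _ => if_neg (h3 A)]
    positivity

theorem many (hp : ∀ k, 0 ≤ p k ∧ p k ≤ 1) {c : ℝ} (hc : 0 < c) (hcp : ∀ k, c ≤ p k)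
    (h : Pat S P p) (hne : ∀ᶠ X in atTop, (S X).Nonempty) (N : ℕ) :
    Tendsto (fun X => (((S X).filter fun a =>
        ∃ F : Finset ℕ, F.card = N ∧ ∀ k ∈ F, P k a).card : ℝ) / ((S X).card : ℝ))
      atTop (𝓝 1) := by
  rw [Metric.tendsto_nhds]
  intro δ hδ
  -- the choice of the length
  have hlim : Tendsto (fun n : ℕ => 2 * Real.exp (-((c / 2) ^ 2 * n / 4))) atTop (𝓝 0) := by
    have h1 : Tendsto (fun n : ℕ => ((c / 2) ^ 2 / 4) * (n : ℝ)) atTop atTop :=
      tendsto_natCast_atTop_atTop.const_mul_atTop (by positivity)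
    have h2 := (Real.tendsto_exp_neg_atTop_nhds_zero.comp h1).const_mul 2
    rw [mul_zero] at h2
    refine h2.congr fun n => ?_
    show 2 * Real.exp (-((c / 2) ^ 2 / 4 * (n : ℝ))) = _
    congr 3
    ring
  obtain ⟨n, hn1, hn2, hn3⟩ := ((hlim.eventually (gt_mem_nhds (half_pos hδ))).and
    ((eventually_gt_atTop 0).and (eventually_ge_atTop ⌈2 * N / c⌉₊))).exists
  have hn' : (0 : ℝ) < n := by exact_mod_cast hn2
  obtain ⟨l, hl, hT⟩ := lln hp h n hn2 (c / 2) (half_pos hc)
  have hl2 : l < δ := by linarith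
  have hT2 := hT.eventually (gt_mem_nhds hl2)
  filter_upwards [hT2, hne] with X h1 h2
  have hS : (0 : ℝ) < ((S X).card : ℝ) := by exact_mod_cast h2.card_pos
  rw [Real.dist_eq, abs_sub_comm, abs_lt]
  set G := (S X).filter fun a => ∃ F : Finset ℕ, F.card = N ∧ ∀ k ∈ F, P k a with hG
  have h3 : (G.card : ℝ) / (S X).card ≤ 1 := by
    rw [div_le_one hS]
    exact_mod_cast card_filter_le _ _
  have h4 : ((S X).card : ℝ) ≤ G.card + (((S X).filter fun a =>
        c / 2 ≤ |(((range n).filter fun k => P k a).card : ℝ) / n -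
          (∑ k ∈ range n, p k) / n|).card : ℝ) := by
    have h5 : S X ⊆ G ∪ ((S X).filter fun a =>
        c / 2 ≤ |(((range n).filter fun k => P k a).card : ℝ) / n -
          (∑ k ∈ range n, p k) / n|) := by
      intro a ha
      rw [mem_union, hG, mem_filter, mem_filter]
      by_cases h6 : c / 2 ≤ |(((range n).filter fun k => P k a).card : ℝ) / n -
          (∑ k ∈ range n, p k) / n|
      · exact Or.inr ⟨ha, h6⟩
      · refine Or.inl ⟨ha, ?_⟩
        rw [not_le, abs_lt] at h6
        have h7 : c ≤ (∑ k ∈ range n, p k) / n := by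
          rw [le_div_iff₀ hn']
          have h8 : ∑ _k ∈ range n, c ≤ ∑ k ∈ range n, p k := sum_le_sum fun k _ => hcp k
          rw [sum_const, Finset.card_range, nsmul_eq_mul] at h8
          linarith
        have h8 : c / 2 < (((range n).filter fun k => P k a).card : ℝ) / n := by linarith [h6.1]
        have h9 : N ≤ ((range n).filter fun k => P k a).card := by
          rw [lt_div_iff₀ hn'] at h8
          have h10 : 2 * (N : ℝ) / c ≤ n := (Nat.le_ceil _).trans (by exact_mod_cast hn3)
          rw [div_le_iff₀ hc] at h10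
          have h11 : (N : ℝ) < (((range n).filter fun k => P k a).card : ℝ) := by linarith
          exact_mod_cast h11.le
        obtain ⟨F, hF, hF2⟩ := exists_subset_card_eq h9
        exact ⟨F, hF2, fun k hk => (mem_filter.1 (hF hk)).2⟩
    exact_mod_cast (card_le_card h5).trans (card_union_le _ _)
  have h5 : 1 ≤ (G.card : ℝ) / (S X).card + (((S X).filter fun a =>
        c / 2 ≤ |(((range n).filter fun k => P k a).card : ℝ) / n -
          (∑ k ∈ range n, p k) / n|).card : ℝ) / (S X).card := by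
    rw [← add_div, le_div_iff₀ hS, one_mul]
    exact h4
  constructor <;> linarith

end Pool.Agent.U695.JT
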