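import Pool.Agent.U687.PT.Law
import Pool.Agent.U687.PT.Up
import Pool.Agent.U695.JT.Prob

/-!
# The joint law for several numbers `D i` without common prime factors

After `Pool.Agent.U687.PT.Law` (one number `D`).
-/

set_option autoImplicit false

open scoped Classical

namespace Pool.Agent.U695.JT

open Finset Filter Topology
open Pool.Agent.U687.PT
open Pool.Agent.Y703.CX (lam pp)
open Pool.Agent.Y703.CT (NoSplit)
open Pool.Agent.Y692.QS
open Pool.Agent.Y715.T.Rec (cs nn)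
open Pool.Agent.Y715.T.RecG (Pq cs_of)
open Pool.Agent.Y333.CX (pp_spec)
open Pool.Agent.Y405.CT (pq_star)
open Q283.TQ (NSg mu Bs aa bb pq_neg crit eq_or_star)
open Q283.TC (FT NT Dat NT_split few_inert sqrt_div_pc mod_three HH)
open Pool.Agent.W401.Cheb (M pr mem_pr M_congr)

theorem nr_PP {D : ℕ} (hD : Bs D) {e : Ei} (he : e ∈ PP D) :
    ∃ r ∈ D.primeFactors, nr e = r ∨ nr e = (r : ℤ) ^ 2 := by
  rcases mem_PP.1 he with ⟨p, hp, rfl⟩ | ⟨p, hp, rfl⟩ | ⟨q, hq, rfl⟩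
  · exact ⟨p, (mem_S1.1 hp).1, Or.inl (S1_spec hp).2⟩
  · exact ⟨p, (mem_S1.1 hp).1, Or.inl (by rw [nr_star]; exact (S1_spec hp).2)⟩
  · refine ⟨q, (Finset.mem_sdiff.1 hq).1, Or.inr ?_⟩
    rw [nr_neg', nr_nat]

theorem PP_disj {D D' : ℕ} (hD : Bs D) (hD' : Bs D') (h : Nat.Coprime D D') :
    Disjoint (PP D) (PP D') := by
  rw [Finset.disjoint_left]
  intro e h1 h2
  obtain ⟨r, hr, h3⟩ := nr_PP hD h1
  obtain ⟨r', hr', h4⟩ := nr_PP hD' h2
  have hp := Nat.prime_of_mem_primeFactors hr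
  have hp' := Nat.prime_of_mem_primeFactors hr'
  have key : ∃ a b : ℕ, a ≠ 0 ∧ b ≠ 0 ∧ r ^ a = r' ^ b := by
    rcases h3 with h3 | h3 <;> rcases h4 with h4 | h4 <;> rw [h3] at h4
    · exact ⟨1, 1, one_ne_zero, one_ne_zero, by rw [pow_one, pow_one]; exact_mod_cast h4⟩
    · exact ⟨1, 2, one_ne_zero, two_ne_zero, by rw [pow_one]; exact_mod_cast h4⟩
    · exact ⟨2, 1, two_ne_zero, one_ne_zero, by rw [pow_one]; exact_mod_cast h4⟩
    · exact ⟨2, 2, two_ne_zero, two_ne_zero, by exact_mod_cast h4⟩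
  obtain ⟨a, b, ha, hb, hab⟩ := key
  have h5 : r ∣ r' := hp.dvd_of_dvd_pow (hab ▸ dvd_pow_self r ha)
  have h6 : r ∣ Nat.gcd D D' :=
    Nat.dvd_gcd (Nat.dvd_of_mem_primeFactors hr) (h5.trans (Nat.dvd_of_mem_primeFactors hr'))
  rw [h] at h6
  exact hp.one_lt.ne' (Nat.dvd_one.1 h6)

variable {n : ℕ}

/-- the primary primes above the prime divisors of the `D i` -/
noncomputable def PU (D : Fin n → ℕ) : Finset Ei := Finset.univ.biUnion fun i => PP (D i)

theorem PP_sub (D : Fin n → ℕ) (i : Fin n) : PP (D i) ⊆ PU D :=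
  Finset.subset_biUnion_of_mem (fun i => PP (D i)) (mem_univ i)

theorem pq_PU {D : Fin n → ℕ} (hD : ∀ i, Bs (D i)) : ∀ e ∈ PU D, Pq e := by
  intro e he
  obtain ⟨i, -, hi⟩ := Finset.mem_biUnion.1 he
  exact pq_PP (hD i) e hi

/-- the restrictions -/
def res (D : Fin n → ℕ) (x : PU D → ZMod 3) (i : Fin n) : PP (D i) → ZMod 3 :=
  fun e => x ⟨e, PP_sub D i e.2⟩

theorem res_bij {D : Fin n → ℕ} (hD : ∀ i, Bs (D i))
    (hc : Pairwise fun i k => Nat.Coprime (D i) (D k)) : Function.Bijective (res D) := by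
  rw [Fintype.bijective_iff_injective_and_card]
  constructor
  · intro x y h
    funext e
    obtain ⟨i, -, hi⟩ := Finset.mem_biUnion.1 e.2
    exact congrFun (congrFun h i) ⟨e, hi⟩
  · rw [Fintype.card_fun, Fintype.card_pi, Fintype.card_coe, ZMod.card]
    have h1 : (PU D).card = ∑ i, (PP (D i)).card := by
      unfold PU
      exact Finset.card_biUnion fun i _ k _ hik => PP_disj (hD i) (hD k) (hc hik)
    rw [h1, ← Finset.prod_pow_eq_pow_sum]
    refine Finset.prod_congr rfl fun i _ => ?_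
    rw [Fintype.card_fun, Fintype.card_coe, ZMod.card]

/-- counting the systems of symbols with independent properties -/
theorem card_res {D : Fin n → ℕ} (hD : ∀ i, Bs (D i))
    (hc : Pairwise fun i k => Nat.Coprime (D i) (D k))
    (E : ∀ i, (PP (D i) → ZMod 3) → Prop) :
    Nat.card {x : PU D → ZMod 3 // ∀ i, E i (res D x i)} =
      ∏ i, Nat.card {y : PP (D i) → ZMod 3 // E i y} := by
  rw [← Nat.card_pi]
  exact Nat.card_congr (((Equiv.ofBijective _ (res_bij hD hc)).subtypeEquiv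
    (q := fun f => ∀ i, E i (f i)) fun x => Iff.rfl).trans (Equiv.subtypePiEquivPi (p := E)))

/-- the proportion of the nonsingular systems -/
noncomputable def dn (D : ℕ) : ℝ := (good D : ℝ) / 3 ^ (2 * (S1 D).card + 1)

theorem card_ev {D : ℕ} (hD : Bs D) (b : Prop) [Decidable b] :
    (Nat.card {y : PP D → ZMod 3 // b ↔ NSg D (ext0 (Phi D y).1) (ext0 (Phi D y).2)} : ℝ) /
      3 ^ (PP D).card = if b then dn D else 1 - dn D := by
  have h3 : Nat.card (PP D → ZMod 3) = 3 ^ (PP D).card := by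
    rw [Nat.card_fun]
    simp
  have e : (3 : ℝ) ^ (PP D).card ≠ 0 := by positivity
  have hcard := card_PP hD
  by_cases hb : b
  · rw [if_pos hb]
    have h1 : Nat.card {y : PP D → ZMod 3 // b ↔ NSg D (ext0 (Phi D y).1) (ext0 (Phi D y).2)} =
        good D := by
      rw [← card_Phi hD]
      exact Nat.card_congr (Equiv.subtypeEquivRight fun y => ⟨fun h => h.1 hb, fun h => ⟨fun _ => h, fun _ => hb⟩⟩)
    rw [h1, dn, hcard]
  · rw [if_neg hb]
    have h1 : Nat.card {y : PP D → ZMod 3 // b ↔ NSg D (ext0 (Phi D y).1) (ext0 (Phi D y).2)} +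
        good D = 3 ^ (PP D).card := by
      rw [← card_Phi hD, ← h3]
      have e1 : Nat.card {y : PP D → ZMod 3 // b ↔ NSg D (ext0 (Phi D y).1) (ext0 (Phi D y).2)} =
          Nat.card {y : PP D → ZMod 3 // ¬ NSg D (ext0 (Phi D y).1) (ext0 (Phi D y).2)} :=
        Nat.card_congr (Equiv.subtypeEquivRight fun y =>
          ⟨fun h h2 => hb (h.2 h2), fun h => ⟨fun h2 => absurd h2 hb, fun h2 => absurd h2 h⟩⟩)
      have e2 : good D =
          Nat.card {y : PP D → ZMod 3 // NSg D (ext0 (Phi D y).1) (ext0 (Phi D y).2)} :=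
        (card_Phi hD).symm
      rw [card_Phi hD, e1, e2, add_comm, ← Nat.card_sum]
      exact Nat.card_congr (Equiv.sumCompl _)
    have h2 : (Nat.card {y : PP D → ZMod 3 //
        b ↔ NSg D (ext0 (Phi D y).1) (ext0 (Phi D y).2)} : ℝ) = 3 ^ (PP D).card - good D := by
      rw [eq_sub_iff_add_eq]
      exact_mod_cast h1
    rw [h2, sub_div, div_self e, dn, hcard]

/-- **The joint law.** -/
theorem law (D : Fin n → ℕ) (hD : ∀ i, Bs (D i))
    (hc : Pairwise fun i k => Nat.Coprime (D i) (D k))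
    {j : ℕ} (hj : j = 1 ∨ j = 4 ∨ j = 7) (R : Fin n → ℕ → Prop)
    (hR : ∀ (i : Fin n) (l : ℕ), l.Prime → ¬ l ∣ D i → l % 9 = j → (R i l ↔ NoSplit (D i * l)))
    (A : Finset (Fin n)) :
    Tendsto (fun X : ℕ =>
      (((Icc 1 X).filter fun l => l.Prime ∧ l % 9 = j ∧ ∀ i, (i ∈ A ↔ R i l)).card : ℝ) /
        (((Icc 1 X).filter fun l => l.Prime ∧ l % 9 = j).card : ℝ)) atTop
      (𝓝 (wt (fun i => dn (D i)) A)) := by
  have hP := pq_PU hD
  have hwP : w ∉ PU D := by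
    intro h
    apply (hP w h).prime.not_isUnit
    rw [Pool.Agent.Y692.QS.isUnit_iff]; decide
  obtain ⟨L, hL, hN, hG, ⟨E⟩⟩ := exists_dat (PU D) hwP
  set y0 : ZMod 3 := ((j / 3 : ℕ) : ZMod 3) with hy0
  set N := (PU D).card with hNd
  set κ : ℝ := 2 * (Nat.card (HH E.Z) : ℝ) / (Nat.card Gal(L/ℚ) : ℝ) with hκ
  have hκ0 : 0 < κ := by
    have h1 := Nat.card_pos (α := HH E.Z)
    have h2 := Nat.card_pos (α := Gal(L/ℚ))
    positivity
  set EV : (∀ i, (PP (D i) → ZMod 3) → Prop) := fun i y =>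
    (i ∈ A ↔ NSg (D i) (ext0 (Phi (D i) y).1) (ext0 (Phi (D i) y).2)) with hEV
  -- the two densities
  have d1 := E.dens hP (fun z => z.2 = y0 ∧ ∀ i, EV i (res D z.1 i))
    (fun π => cs π w = y0 ∧ ∀ i, (i ∈ A ↔ NSg (D i) (aa π) (bb π)))
    (fun π _ _ => and_congr Iff.rfl (forall_congr' fun i =>
      iff_congr Iff.rfl (nsg_iff (D i) π).symm))
  have d0 := E.dens hP (fun z => z.2 = y0) (fun π => cs π w = y0) (fun π _ _ => Iff.rfl)
  have c1 : Nat.card {z : (PU D → ZMod 3) × ZMod 3 // z.2 = y0 ∧ ∀ i, EV i (res D z.1 i)} =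
      ∏ i, Nat.card {y : PP (D i) → ZMod 3 // EV i y} := by
    rw [← card_res hD hc EV]
    refine Nat.card_congr
      { toFun := fun z => ⟨z.1.1, z.2.2⟩
        invFun := fun x => ⟨(x.1, y0), rfl, x.2⟩
        left_inv := fun z => Subtype.ext (Prod.ext rfl z.2.1.symm)
        right_inv := fun x => rfl }
  have c0 : Nat.card {z : (PU D → ZMod 3) × ZMod 3 // z.2 = y0} = 3 ^ N := by
    have e1 : Nat.card (PU D → ZMod 3) = 3 ^ N := by
      rw [Nat.card_fun]
      simp [hNd]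
    rw [← e1]
    refine Nat.card_congr
      { toFun := fun z => z.1.1
        invFun := fun x => ⟨(x, y0), rfl⟩
        left_inv := fun z => Subtype.ext (Prod.ext rfl z.2.symm)
        right_inv := fun x => rfl }
  have hNs : N = ∑ i, (PP (D i)).card := by
    rw [hNd]
    unfold PU
    exact Finset.card_biUnion fun i _ k _ hik => PP_disj (hD i) (hD k) (hc hik)
  have c2 : ((∏ i, Nat.card {y : PP (D i) → ZMod 3 // EV i y} : ℕ) : ℝ) / 3 ^ N =
      wt (fun i => dn (D i)) A := by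
    rw [hNs, ← Finset.prod_pow_eq_pow_sum]
    push_cast
    rw [← Finset.prod_div_distrib]
    unfold wt
    exact Finset.prod_congr rfl fun i _ => card_ev (hD i) (i ∈ A)
  rw [c1] at d1
  rw [c0] at d0
  have f1 := FT_tendsto d1
  have f0 := FT_tendsto d0
  have hD0 : 0 < 3 * ∏ i, D i := by
    have : 0 < ∏ i, D i := Finset.prod_pos fun i _ => Nat.pos_of_ne_zero (hD i).ne_zero
    omega
  have g1 : Tendsto (M fun p => if p % 9 = j ∧ ∀ i, (i ∈ A ↔ R i p) then (2 : ℝ) else 0) atTop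
      (𝓝 (κ * (((∏ i, Nat.card {y : PP (D i) → ZMod 3 // EV i y} : ℕ) : ℝ) / 3 ^ (N + 1)))) := by
    refine M_congr hD0 (fun p hp hpD => ?_) f1
    have h3 : p ≠ 3 := by
      rintro rfl
      exact hpD (dvd_mul_right _ _)
    have hpD' : ∀ i, ¬ p ∣ D i := fun i h =>
      hpD ((h.trans (Finset.dvd_prod_of_mem D (mem_univ i))).mul_left _)
    symm
    refine FT_eq hp h3 _ _ (fun h1 π hπ hn => ?_) (fun h => ?_)
    · show (cs π w = y0 ∧ ∀ i, (i ∈ A ↔ NSg (D i) (aa π) (bb π))) ↔ _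
      rw [cs_w hπ h1 hn, class_eq hj h1]
      refine and_congr_right fun h9 => forall_congr' fun i => ?_
      rw [hR i p hp (hpD' i) h9, crit (hD i) hp h1 (hpD' i) hπ hn]
    · have h9 := h.1
      rcases hj with rfl | rfl | rfl <;> omega
  have g0 : Tendsto (M fun p => if p % 9 = j then (2 : ℝ) else 0) atTop
      (𝓝 (κ * (((3 ^ N : ℕ) : ℝ) / 3 ^ (N + 1)))) := by
    refine M_congr hD0 (fun p hp hpD => ?_) f0
    have h3 : p ≠ 3 := by
      rintro rfl
      exact hpD (dvd_mul_right _ _)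
    symm
    refine FT_eq hp h3 _ _ (fun h1 π hπ hn => ?_) (fun h9 => ?_)
    · show cs π w = y0 ↔ _
      rw [cs_w hπ h1 hn, class_eq hj h1]
    · rcases hj with rfl | rfl | rfl <;> omega
  have h6 := g1.div g0 (by positivity)
  have h7 : κ * (((∏ i, Nat.card {y : PP (D i) → ZMod 3 // EV i y} : ℕ) : ℝ) / 3 ^ (N + 1)) /
      (κ * (((3 ^ N : ℕ) : ℝ) / 3 ^ (N + 1))) = wt (fun i => dn (D i)) A := by
    rw [← c2]
    push_cast
    field_simp
  rw [h7] at h6
  refine h6.congr' ?_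
  filter_upwards [eventually_ge_atTop 2] with X hX
  have hpc : (Nat.primeCounting X : ℝ) ≠ 0 := by
    have : 0 < Nat.primeCounting X := by
      have h := Nat.monotone_primeCounting hX
      have h2 : Nat.primeCounting 2 = 1 := by decide
      omega
    positivity
  show M _ X / M _ X = _
  unfold M
  rw [div_div_div_cancel_right₀ hpc]
  have e1 := sum_two (fun p => p % 9 = j ∧ ∀ i, (i ∈ A ↔ R i p)) X
  have e0 := sum_two (fun p => p % 9 = j) X
  refine (congrArg₂ (· / ·) e1 e0).trans ?_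
  show 2 * _ / (2 * _) = _
  rw [mul_div_mul_left _ _ two_ne_zero]

/-- for the non-emptiness: there are primes in the class -/
theorem eventually_ne {j : ℕ} (hj : j = 1 ∨ j = 4 ∨ j = 7) :
    ∀ᶠ X in atTop, ((Icc 1 X).filter fun l => l.Prime ∧ l % 9 = j).Nonempty := by
  have h1 : ∃ l : ℕ, l.Prime ∧ l % 9 = j := by
    rcases hj with rfl | rfl | rfl
    · exact ⟨19, by norm_num, by norm_num⟩
    · exact ⟨13, by norm_num, by norm_num⟩
    · exact ⟨7, by norm_num, by norm_num⟩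
  obtain ⟨l, hl, hlj⟩ := h1
  filter_upwards [eventually_ge_atTop l] with X hX
  exact ⟨l, by rw [mem_filter, mem_Icc]; exact ⟨⟨hl.pos, hX⟩, hl, hlj⟩⟩

theorem dn_mem {D : ℕ} (hD : Bs D) : 0 ≤ dn D ∧ dn D ≤ 1 := by
  have h := good_le hD
  unfold dn
  refine ⟨by positivity, ?_⟩
  rw [div_le_one (by positivity)]
  have h2 : (good D : ℝ) ≤ ((2 * 3 ^ (2 * (S1 D).card) : ℕ) : ℝ) := by exact_mod_cast h
  refine h2.trans ?_
  push_cast
  rw [pow_succ]
  have : (0 : ℝ) < 3 ^ (2 * (S1 D).card) := by positivity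
  linarith

theorem dn_ge {D : ℕ} (hD : Bs D) : (2 / 3 : ℝ) ^ ((S1 D).card + 1) ≤ dn D := by
  unfold dn
  rw [le_div_iff₀ (by positivity)]
  have h2 : ((2 ^ ((S1 D).card + 1) * 3 ^ (S1 D).card : ℕ) : ℝ) ≤ (good D : ℝ) := by
    exact_mod_cast good_ge hD
  refine le_trans (le_of_eq ?_) h2
  rw [div_pow]
  push_cast
  have e2 : (3 : ℝ) ^ (2 * (S1 D).card + 1) = 3 ^ ((S1 D).card + 1) * 3 ^ (S1 D).card := by
    rw [← pow_add]
    congr 1
    ring
  rw [e2]
  field_simp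

theorem dn_le {D : ℕ} (hD : Bs D) : dn D ≤ 2 / 3 := by
  unfold dn
  rw [div_le_iff₀ (by positivity)]
  have h2 : (good D : ℝ) ≤ ((2 * 3 ^ (2 * (S1 D).card) : ℕ) : ℝ) := by
    exact_mod_cast good_le hD
  refine le_trans h2 (le_of_eq ?_)
  push_cast
  rw [pow_succ]
  ring

/-- the patterns for a sequence -/
theorem pat (D : ℕ → ℕ) (hD : ∀ i, Bs (D i)) (hc : Pairwise fun i k => Nat.Coprime (D i) (D k))
    {j : ℕ} (hj : j = 1 ∨ j = 4 ∨ j = 7) (R : ℕ → ℕ → Prop)
    (hR : ∀ (i : ℕ) (l : ℕ), l.Prime → ¬ l ∣ D i → l % 9 = j → (R i l ↔ NoSplit (D i * l))) :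
    Pat (fun X : ℕ => (Icc 1 X).filter fun l => l.Prime ∧ l % 9 = j) R fun i => dn (D i) := by
  intro n A
  have h := law (fun i : Fin n => D i) (fun i => hD i)
    (fun i k hik => hc fun h => hik (Fin.ext h)) hj (fun i => R i) (fun i => hR i) A
  refine h.congr fun X => ?_
  congr 3
  ext l
  simp only [mem_filter, and_assoc]

end Pool.Agent.U695.JT
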